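import Pool.Agent.Helper80_TWC.Stmts

/-!
# MP_ff6f12_co, squad TWC: module MUL (helper10)
-/

set_option autoImplicit false

open SimpleGraph

namespace Pool.Agent.TWC80.H10

open Pool.Agent.RS80 Pool.Agent.RS81 Pool.Agent.SEP60

/-- the class is closed under subgraphs -/
theorem inC_mono {V W W' : Type} {B : SimpleGraph V} {G : SimpleGraph W} {G' : SimpleGraph W'}
    (f : W' → W) (hf : Function.Injective f) (h : ∀ a b, G'.Adj a b → G.Adj (f a) (f b))
    (hG : InC B G) : InC B G' := by
  obtain ⟨R, S, hRS, hR, hS⟩ := hG
  have hRS' : ∀ a b, G.Adj a b → R.Adj a b ∨ S.Adj a b := by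
    intro a b hab
    rw [← hRS, sup_adj] at hab
    exact hab
  refine ⟨R.comap f ⊓ G', S.comap f ⊓ G', ?_, ?_, ?_⟩
  · ext a b
    rw [sup_adj, inf_adj, inf_adj, comap_adj, comap_adj]
    constructor
    · rintro (h1 | h1)
      · exact h1.2
      · exact h1.2
    · intro h1
      rcases hRS' _ _ (h a b h1) with h2 | h2
      · exact Or.inl ⟨h2, h1⟩
      · exact Or.inr ⟨h2, h1⟩
  · exact fun hc => hR (hc.trans ⟨⟨⟨f, fun {a b} hab => by
      rw [inf_adj, comap_adj] at hab
      exact hab.1⟩, hf⟩⟩)
  · exact fun hc => hS (hc.trans ⟨⟨⟨f, fun {a b} hab => by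
      rw [inf_adj, comap_adj] at hab
      exact hab.1⟩, hf⟩⟩)

/-- all final vertices at once -/
theorem ff_inC {V W : Type} [Finite W] {B : SimpleGraph V} {G : SimpleGraph W} {d : ℕ}
    (hcone : ∀ (K : Type) [Finite K] (G : SimpleGraph K) (S : Set K), S.ncard ≤ d →
      InC B G → InC B (cone G S)) (hG : InC B G) (E : Type) [Finite E] :
    ∀ att : E → Set W, (∀ e, (att e).ncard ≤ d) → InC B (FF G att) := by
  refine Finite.induction_empty_option (P := fun E =>
    ∀ att : E → Set W, (∀ e, (att e).ncard ≤ d) → InC B (FF G att)) ?_ ?_ ?_ E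
  · intro E E' e ih att hatt
    refine inC_mono (Sum.map id e.symm) ?_ ?_ (ih (fun x => att (e x)) fun x => hatt _)
    · exact Sum.map_injective.2 ⟨Function.injective_id, e.symm.injective⟩
    · rintro (a | x) (b | y) h
      · exact h
      · show a ∈ att (e (e.symm y))
        rw [e.apply_symm_apply]
        exact h
      · show b ∈ att (e (e.symm x))
        rw [e.apply_symm_apply]
        exact h
      · exact h
  · intro att _
    refine inC_mono (fun x : W ⊕ PEmpty => match x with
      | .inl a => a
      | .inr e => e.elim) ?_ ?_ hG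
    · rintro (a | e) (b | e') h
      · exact congrArg _ h
      · exact e'.elim
      · exact e.elim
      · exact e.elim
    · rintro (a | e) (b | e') h
      · exact h
      · exact e'.elim
      · exact e.elim
      · exact e.elim
  · intro E _ ih att hatt
    have h1 := ih (fun x => att (some x)) fun x => hatt _
    have h2 := hcone (W ⊕ E) (FF G fun x => att (some x)) (Sum.inl '' att none)
      (by rw [Set.ncard_image_of_injective _ Sum.inl_injective]; exact hatt none) h1
    refine inC_mono (fun x : W ⊕ Option E => match x with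
      | .inl a => some (.inl a)
      | .inr none => none
      | .inr (some e) => some (.inr e)) ?_ ?_ h2
    · rintro (a | _ | e) (b | _ | e') h
      · have : a = b := by simpa using h
        rw [this]
      · simp at h
      · simp at h
      · simp at h
      · rfl
      · simp at h
      · simp at h
      · simp at h
      · have : e = e' := by simpa using h
        rw [this]
    · rintro (a | _ | e) (b | _ | e') h
      · exact h
      · exact ⟨a, h, rfl⟩
      · exact h
      · exact ⟨b, h, rfl⟩
      · exact h.elim
      · exact h.elim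
      · exact h
      · exact h.elim
      · exact h.elim

/-- MUL. -/
theorem mul (upp : UppStmt) : MulStmt := by
  intro V _ B δ hδ hd hu W E _ _ G att hatt hG hF
  by_contra hcon
  refine hF (ff_inC (d := 2 * δ - 1) ?_ hG E att hatt)
  intro K _ G' S hS hG'
  by_contra h
  exact hcon (upp V B δ hδ hd hu K G' S hS hG' h)

end Pool.Agent.TWC80.H10
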