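import Pool.Agent.Helper80_TWC.Stmts
import Pool.Agent.Helper80_RS.Glue

/-!
# MP_ff6f12_co, squad TWC: module TMP (helper10)
-/

set_option autoImplicit false

open SimpleGraph

namespace Pool.Agent.TWC80.H10

open Pool.Agent.RS80 Pool.Agent.RS81 Pool.Agent.SEP60

/-- the edges of the piece -/
theorem tmp_adj {V K : Type} {B : SimpleGraph V} {R : SimpleGraph K} {v₁ : V} {a M : ℕ}
    {α : Bool} {x y : (Fin M ⊕ (K ⊕ V)) ⊕ Fin a} (h : (tmp B R v₁ a M α).Adj x y) :
    (∃ m h, (x = .inl (.inl m) ∧ y = .inr h) ∨ (y = .inl (.inl m) ∧ x = .inr h)) ∨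
    (∃ k k', R.Adj k k' ∧ x = .inl (.inr (.inl k)) ∧ y = .inl (.inr (.inl k'))) ∨
    (∃ v v', B.Adj v v' ∧ (if α = true then v ≠ v₁ ∧ v' ≠ v₁ else v = v₁ ∨ v' = v₁) ∧
      x = .inl (.inr (.inr v)) ∧ y = .inl (.inr (.inr v'))) := by
  unfold tmp at h
  rw [fromRel_adj] at h
  rcases h with ⟨_, (⟨m, h', h1, h2⟩ | ⟨k, k', h1, h2, h3⟩ | ⟨v, v', h1, h2, h3, h4⟩) |
    (⟨m, h', h1, h2⟩ | ⟨k, k', h1, h2, h3⟩ | ⟨v, v', h1, h2, h3, h4⟩)⟩
  · exact Or.inl ⟨m, h', Or.inl ⟨h1, h2⟩⟩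
  · exact Or.inr (Or.inl ⟨k, k', h1, h2, h3⟩)
  · exact Or.inr (Or.inr ⟨v, v', h1, h2, h3, h4⟩)
  · exact Or.inl ⟨m, h', Or.inr ⟨h1, h2⟩⟩
  · exact Or.inr (Or.inl ⟨k', k, h1.symm, h3, h2⟩)
  · refine Or.inr (Or.inr ⟨v', v, h1.symm, ?_, h4, h3⟩)
    by_cases hα : α = true
    · rw [if_pos hα] at h2 ⊢
      exact ⟨h2.2, h2.1⟩
    · rw [if_neg hα] at h2 ⊢
      exact h2.symm

/-- TMP. -/
theorem tmp' : TmpStmt := by
  intro V _ B hB K _ R v₁ a M hK hR α
  rintro ⟨f⟩
  have finj : ∀ u v, f u = f v → u = v := fun u v h => f.injective h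
  have fadj : ∀ u v, B.Adj u v → (tmp B R v₁ a M α).Adj (f u) (f v) :=
    fun u v h => f.toHom.map_adj h
  obtain ⟨v0⟩ : Nonempty V := hB.2.1.nonempty
  rcases hfv : f v0 with (m | k | w) | h
  all_goals
    first
    | (have key : ∀ v, (∃ m, f v = .inl (.inl m)) ∨ ∃ h, f v = .inr h := by
        apply prop_of_preconnected hB.2.1.preconnected
          (fun v => (∃ m, f v = .inl (.inl m)) ∨ ∃ h, f v = .inr h) ?_ (u := v0)
        · first
          | exact Or.inl ⟨_, hfv⟩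
          | exact Or.inr ⟨_, hfv⟩
        · intro u v huv hu
          rcases tmp_adj (fadj u v huv) with ⟨m, h', ⟨_, h2⟩ | ⟨h2, _⟩⟩ |
            ⟨k, k', _, h2, _⟩ | ⟨v, v', _, _, h2, _⟩
          · exact Or.inr ⟨h', h2⟩
          · exact Or.inl ⟨m, h2⟩
          · rcases hu with ⟨_, hu⟩ | ⟨_, hu⟩ <;> rw [hu] at h2 <;> simp at h2
          · rcases hu with ⟨_, hu⟩ | ⟨_, hu⟩ <;> rw [hu] at h2 <;> simp at h2
       have key2 : ∀ v, ∃ w : Fin a ⊕ Fin M, f v = Sum.elim (fun h => .inr h)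
          (fun m => .inl (.inl m)) w := by
        intro v
        rcases key v with ⟨m, hm⟩ | ⟨h, hh⟩
        · exact ⟨.inr m, hm⟩
        · exact ⟨.inl h, hh⟩
       choose g hg using key2
       refine hK M ⟨⟨⟨g, ?_⟩, ?_⟩⟩
       · intro u v huv
         have h1 := tmp_adj (fadj u v huv)
         rw [hg u, hg v] at h1
         rcases hu : g u with p | p <;> rcases hv : g v with q | q <;>
           rw [hu, hv] at h1 <;> simp [completeBipartiteGraph] at h1 ⊢
       · intro u v huv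
         apply finj
         have h1 : g u = g v := huv
         rw [hg u, hg v, h1])
    | skip
  · have key : ∀ v, ∃ k, f v = .inl (.inr (.inl k)) := by
      apply prop_of_preconnected hB.2.1.preconnected
        (fun v => ∃ k, f v = .inl (.inr (.inl k))) ?_ (u := v0) ⟨k, hfv⟩
      rintro u v huv ⟨_, hu⟩
      rcases tmp_adj (fadj u v huv) with ⟨m, h', ⟨h2, _⟩ | ⟨_, h2⟩⟩ |
        ⟨k, k', _, _, h2⟩ | ⟨v, v', _, _, h2, _⟩
      · rw [hu] at h2; simp at h2
      · rw [hu] at h2; simp at h2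
      · exact ⟨k', h2⟩
      · rw [hu] at h2; simp at h2
    choose g hg using key
    refine hR ⟨⟨⟨g, ?_⟩, ?_⟩⟩
    · intro u v huv
      rcases tmp_adj (fadj u v huv) with ⟨m, h', ⟨h2, _⟩ | ⟨_, h2⟩⟩ |
        ⟨k, k', h1, h2, h3⟩ | ⟨v, v', _, _, h2, _⟩
      · rw [hg u] at h2; simp at h2
      · rw [hg u] at h2; simp at h2
      · rw [hg u] at h2
        rw [hg v] at h3
        have e1 : g u = k := by simpa using h2
        have e2 : g v = k' := by simpa using h3
        show R.Adj (g u) (g v)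
        rw [e1, e2]
        exact h1
      · rw [hg u] at h2; simp at h2
    · intro u v huv
      apply finj
      have h1 : g u = g v := huv
      rw [hg u, hg v, h1]
  · have key : ∀ v, ∃ w, f v = .inl (.inr (.inr w)) := by
      apply prop_of_preconnected hB.2.1.preconnected
        (fun v => ∃ w, f v = .inl (.inr (.inr w))) ?_ (u := v0) ⟨w, hfv⟩
      rintro u v huv ⟨_, hu⟩
      rcases tmp_adj (fadj u v huv) with ⟨m, h', ⟨h2, _⟩ | ⟨_, h2⟩⟩ |
        ⟨k, k', _, h2, _⟩ | ⟨v, v', _, _, _, h2⟩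
      · rw [hu] at h2; simp at h2
      · rw [hu] at h2; simp at h2
      · rw [hu] at h2; simp at h2
      · exact ⟨v', h2⟩
    choose g hg using key
    have gadj : ∀ u v, B.Adj u v →
        (if α = true then g u ≠ v₁ ∧ g v ≠ v₁ else g u = v₁ ∨ g v = v₁) := by
      intro u v huv
      rcases tmp_adj (fadj u v huv) with ⟨m, h', ⟨h2, _⟩ | ⟨_, h2⟩⟩ |
        ⟨k, k', _, h2, _⟩ | ⟨w, w', _, h1, h2, h3⟩
      · rw [hg u] at h2; simp at h2
      · rw [hg u] at h2; simp at h2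
      · rw [hg u] at h2; simp at h2
      · rw [hg u] at h2
        rw [hg v] at h3
        have e1 : g u = w := by simpa using h2
        have e2 : g v = w' := by simpa using h3
        rw [e1, e2]
        exact h1
    have ginj : Function.Injective g := by
      intro u v huv
      apply finj
      rw [hg u, hg v, huv]
    obtain ⟨x₀, hx₀⟩ := (Finite.injective_iff_surjective.1 ginj) v₁
    by_cases hα : α = true
    · obtain ⟨y, hy⟩ := hB.exists_adj x₀
      have h1 := gadj _ _ hy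
      rw [if_pos hα] at h1
      exact h1.1 hx₀
    · obtain ⟨y, hy⟩ := hB.exists_adj x₀
      obtain ⟨z, hz, hyz⟩ := hB.exists_adj_ne y x₀
      have h1 := gadj _ _ hyz
      rw [if_neg hα] at h1
      rcases h1 with h1 | h1
      · exact hy.ne (ginj (hx₀.trans h1.symm))
      · exact hz (ginj (h1.trans hx₀.symm))

end Pool.Agent.TWC80.H10
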